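import Mathlib

/-! Circle averages on the unit circle: rotation, mean value, dilation contraction,
and a two-step Parseval identity. -/

namespace Pool.Agent.MP_d3fa2a_an

open Complex Metric Real Set

/-- average over the unit circle -/
noncomputable def avg (f : ℂ → ℝ) : ℝ := circleAverage f 0 1

lemma cint {E : Type*} [NormedAddCommGroup E] {f : ℂ → E} (hf : ContinuousOn f (sphere 0 1)) :
    CircleIntegrable f 0 1 := hf.circleIntegrable zero_le_one

lemma avg_mono {f g : ℂ → ℝ} (hf : ContinuousOn f (sphere 0 1)) (hg : ContinuousOn g (sphere 0 1))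
    (h : ∀ z : ℂ, ‖z‖ = 1 → f z ≤ g z) : avg f ≤ avg g := by
  apply circleAverage_mono (cint hf) (cint hg)
  intro x hx
  apply h
  simpa using hx

lemma avg_congr {f g : ℂ → ℝ} (h : ∀ z : ℂ, ‖z‖ = 1 → f z = g z) : avg f = avg g := by
  apply circleAverage_congr_sphere
  intro x hx
  apply h
  simpa using hx

lemma avg_add {f g : ℂ → ℝ} (hf : ContinuousOn f (sphere 0 1)) (hg : ContinuousOn g (sphere 0 1)) :
    avg (fun z => f z + g z) = avg f + avg g :=
  circleAverage_fun_add (cint hf) (cint hg)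

lemma avg_const (a : ℝ) : avg (fun _ => a) = a := circleAverage_const a 0 1

lemma avg_mul (a : ℝ) (f : ℂ → ℝ) : avg (fun z => a * f z) = a * avg f := by
  have := circleAverage_fun_smul (a := a) (f := f) (c := 0) (R := 1)
  simpa [avg] using this

lemma avg_rot (f : ℂ → ℝ) {u : ℂ} (hu : ‖u‖ = 1) : avg (fun z => f (u * z)) = avg f := by
  unfold avg
  rw [circleAverage_eq_integral_add (f := f) (arg u), circleAverage_def]
  congr 1
  apply intervalIntegral.integral_congr
  intro θ _
  have h : u = cexp (arg u * I) := by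
    have := norm_mul_exp_arg_mul_I u
    rw [hu] at this
    simpa using this.symm
  simp only [circleMap]
  congr 1
  conv_lhs => rw [h]
  push_cast
  rw [add_mul, Complex.exp_add]
  ring

lemma avg_re {h : ℂ → ℂ} (hh : DiffContOnCl ℂ h (ball 0 1)) :
    avg (fun z => (h z).re) = (h 0).re := by
  have h1 : DiffContOnCl ℂ h (ball 0 |(1 : ℝ)|) := by simpa using hh
  have h2 := h1.circleAverage
  have h3 : ContinuousOn h (sphere 0 1) :=
    hh.continuousOn.mono (by rw [closure_ball _ one_ne_zero]; exact sphere_subset_closedBall)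
  have h4 := Complex.reCLM.circleAverage_comp_comm (cint h3)
  rw [h2] at h4
  exact h4

lemma contOn_cl {h : ℂ → ℂ} (hh : DiffContOnCl ℂ h (ball 0 1)) :
    ContinuousOn h (closedBall 0 1) := by
  have := hh.continuousOn
  rwa [closure_ball _ one_ne_zero] at this

lemma contOn_sph {h : ℂ → ℂ} (hh : DiffContOnCl ℂ h (ball 0 1)) :
    ContinuousOn h (sphere 0 1) := (contOn_cl hh).mono sphere_subset_closedBall

lemma dcc_mul {h : ℂ → ℂ} (hh : DiffContOnCl ℂ h (ball 0 1)) {u : ℂ} (hu : ‖u‖ ≤ 1) :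
    DiffContOnCl ℂ (fun z => h (u * z)) (ball 0 1) := by
  apply hh.comp (g := fun z => u * z) (by apply Differentiable.diffContOnCl; fun_prop)
  intro z hz
  simp only [mem_ball, dist_zero_right, norm_mul] at hz ⊢
  calc ‖u‖ * ‖z‖ ≤ 1 * ‖z‖ := by gcongr
    _ < 1 := by simpa using hz

lemma contOn_poisson {c : ℂ} (hc : ‖c‖ < 1) :
    ContinuousOn (fun w : ℂ => poissonKernel 0 c w) (sphere 0 1) := by
  unfold poissonKernel
  apply ContinuousOn.div (by fun_prop) (by fun_prop)
  intro w hw
  have hw' : ‖w‖ = 1 := by simpa using hw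
  have : w - 0 - (c - 0) ≠ 0 := by
    intro h0
    have : w = c := by simpa [sub_eq_zero] using h0
    rw [this] at hw'
    linarith
  positivity

lemma poisson_nonneg {c w : ℂ} (hc : ‖c‖ < 1) (hw : ‖w‖ = 1) : 0 ≤ poissonKernel 0 c w := by
  unfold poissonKernel
  apply div_nonneg _ (by positivity)
  simp only [sub_zero, hw]
  nlinarith [norm_nonneg c]

lemma avg_poisson_re {h : ℂ → ℂ} (hh : DiffContOnCl ℂ h (ball 0 1)) {c : ℂ} (hc : ‖c‖ < 1) :
    avg (fun w => poissonKernel 0 c w * (h w).re) = (h c).re := by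
  have h2 := hh.circleAverage_poissonKernel_smul (w := c) (by simpa using hc)
  have h3 : ContinuousOn (poissonKernel 0 c • h) (sphere 0 1) :=
    (contOn_poisson hc).smul (contOn_sph hh)
  have h4 := Complex.reCLM.circleAverage_comp_comm (cint h3)
  rw [h2] at h4
  rw [show (h c).re = reCLM (h c) from rfl, ← h4]
  unfold avg
  congr 1
  ext w
  simp

lemma sq_le_poisson {h : ℂ → ℂ} (hh : DiffContOnCl ℂ h (ball 0 1)) {c : ℂ} (hc : ‖c‖ < 1) :
    ‖h c‖ ^ 2 ≤ avg (fun w => poissonKernel 0 c w * ‖h w‖ ^ 2) := by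
  set v := h c with hv
  have hk : DiffContOnCl ℂ (fun w => 2 * (starRingEnd ℂ v) * h w - (‖v‖ ^ 2 : ℝ)) (ball 0 1) := by
    apply DiffContOnCl.sub_const
    exact ⟨hh.1.const_mul _, continuousOn_const.mul hh.2⟩
  have h1 := avg_poisson_re hk hc
  have h2 : (2 * (starRingEnd ℂ v) * h c - (‖v‖ ^ 2 : ℝ)).re = ‖v‖ ^ 2 := by
    rw [← hv, mul_assoc, conj_mul', Complex.sub_re, Complex.ofReal_re]
    norm_cast
    ring
  rw [h2] at h1
  rw [← h1]
  apply avg_mono
  · exact (contOn_poisson hc).mul (continuous_re.comp_continuousOn (contOn_sph hk))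
  · exact (contOn_poisson hc).mul ((contOn_sph hh).norm.pow 2)
  · intro w hw
    apply mul_le_mul_of_nonneg_left _ (poisson_nonneg hc hw)
    rw [Complex.sq_norm, Complex.sq_norm]
    simp only [normSq_apply, sub_re, mul_re, mul_im, conj_re, conj_im, ofReal_re, re_ofNat,
      im_ofNat]
    nlinarith [sq_nonneg ((h w).re - v.re), sq_nonneg ((h w).im - v.im)]

/-- The quadratic mean does not increase under dilation. -/
lemma avg_dilate {h : ℂ → ℂ} (hh : DiffContOnCl ℂ h (ball 0 1)) {c : ℂ} (hc : ‖c‖ ≤ 1) :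
    avg (fun z => ‖h (c * z)‖ ^ 2) ≤ avg (fun z => ‖h z‖ ^ 2) := by
  rcases eq_or_lt_of_le hc with hc1 | hc1
  · exact (avg_rot (fun z => ‖h z‖ ^ 2) hc1).le
  have hm : ∀ θ : ℝ, ‖circleMap 0 1 θ‖ = 1 := fun θ => by simp
  have hcont : Continuous (fun p : ℝ × ℝ =>
      poissonKernel 0 c (circleMap 0 1 p.2) * ‖h (circleMap 0 1 p.1 * circleMap 0 1 p.2)‖ ^ 2) := by
    apply Continuous.mul
    · exact (contOn_poisson hc1).comp_continuous (by fun_prop) (fun p => by simp)
    · apply Continuous.pow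
      apply Continuous.norm
      exact (contOn_sph hh).comp_continuous (by fun_prop) (fun p => by simp)
  have step1 : avg (fun z => ‖h (c * z)‖ ^ 2) ≤ (2 * π)⁻¹ • ∫ θ in (0 : ℝ)..2 * π,
      (2 * π)⁻¹ • ∫ φ in (0 : ℝ)..2 * π, poissonKernel 0 c (circleMap 0 1 φ) *
        ‖h (circleMap 0 1 θ * circleMap 0 1 φ)‖ ^ 2 := by
    unfold avg
    rw [circleAverage_def]
    simp only [smul_eq_mul]
    apply mul_le_mul_of_nonneg_left _ (by positivity)
    apply intervalIntegral.integral_mono_on (by positivity)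
    · exact cint ((contOn_sph (dcc_mul hh hc)).norm.pow 2)
    · apply Continuous.intervalIntegrable
      apply Continuous.mul continuous_const
      exact intervalIntegral.continuous_parametric_intervalIntegral_of_continuous' hcont _ _
    · intro θ _
      have := sq_le_poisson (dcc_mul hh (hm θ).le) hc1
      rw [mul_comm c]
      simpa [avg, circleAverage_def] using this
  refine step1.trans (le_of_eq ?_)
  rw [intervalIntegral.integral_smul, MeasureTheory.intervalIntegral_intervalIntegral_swap]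
  · have : ∀ φ : ℝ, (∫ θ in (0 : ℝ)..2 * π, poissonKernel 0 c (circleMap 0 1 φ) *
        ‖h (circleMap 0 1 θ * circleMap 0 1 φ)‖ ^ 2) =
        (2 * π * avg (fun z => ‖h z‖ ^ 2)) * poissonKernel 0 c (circleMap 0 1 φ) := by
      intro φ
      rw [intervalIntegral.integral_const_mul, ← avg_rot (fun z => ‖h z‖ ^ 2) (hm φ)]
      simp only [avg, circleAverage_def, smul_eq_mul]
      have : ∀ x : ℝ, circleMap 0 1 φ * circleMap 0 1 x = circleMap 0 1 x * circleMap 0 1 φ :=
        fun x => mul_comm _ _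
      simp_rw [this]
      generalize (∫ x in (0 : ℝ)..2 * π, ‖h (circleMap 0 1 x * circleMap 0 1 φ)‖ ^ 2) = J
      field_simp
    simp_rw [this]
    rw [intervalIntegral.integral_const_mul]
    have h1 := avg_poisson_re (h := fun _ => (1 : ℂ)) diffContOnCl_const hc1
    simp only [avg, circleAverage_def, smul_eq_mul, one_re, mul_one] at h1 ⊢
    have hpi : (2 * π) ≠ 0 := by positivity
    have h2 : (∫ φ in (0 : ℝ)..2 * π, poissonKernel 0 c (circleMap 0 1 φ)) = 2 * π := by
      field_simp at h1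
      linarith
    rw [h2]
    field_simp
  · apply (hcont.continuousOn.integrableOn_compact
      (K := uIcc (0 : ℝ) (2 * π) ×ˢ uIcc (0 : ℝ) (2 * π)) (isCompact_uIcc.prod isCompact_uIcc)).mono_set
    exact prod_mono uIoc_subset_uIcc uIoc_subset_uIcc

/-- Parseval identity for the first two coefficients. -/
lemma avg_parseval {k : ℂ → ℂ} (hk : DiffContOnCl ℂ k (ball 0 1)) (α : ℂ) :
    avg (fun z => ‖1 + α * z + z ^ 2 * k z‖ ^ 2) = 1 + ‖α‖ ^ 2 + avg (fun z => ‖k z‖ ^ 2) := by
  have hd : DiffContOnCl ℂ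
      (fun z => 2 * (α * z + z ^ 2 * k z + (starRingEnd ℂ α) * (z * k z))) (ball 0 1) := by
    have e1 : DiffContOnCl ℂ (fun z : ℂ => z) (ball 0 1) := differentiable_id.diffContOnCl
    have e2 : DiffContOnCl ℂ (fun z : ℂ => z * k z) (ball 0 1) :=
      ⟨e1.1.mul hk.1, e1.2.mul hk.2⟩
    have e3 : DiffContOnCl ℂ (fun z : ℂ => z ^ 2 * k z) (ball 0 1) :=
      ⟨(e1.1.pow 2).mul hk.1, (e1.2.pow 2).mul hk.2⟩
    exact ⟨(((e1.1.const_mul α).add e3.1).add (e2.1.const_mul _)).const_mul 2,
      continuousOn_const.mul (((continuousOn_const.mul e1.2).add e3.2).add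
        (continuousOn_const.mul e2.2))⟩
  have h0 := avg_re hd
  simp only [mul_zero, ne_eq, OfNat.ofNat_ne_zero, not_false_eq_true, zero_pow, zero_mul,
    add_zero, zero_re] at h0
  have h1 : avg (fun z => ‖1 + α * z + z ^ 2 * k z‖ ^ 2) =
      avg (fun z => ((1 + ‖α‖ ^ 2) + ‖k z‖ ^ 2) +
        (2 * (α * z + z ^ 2 * k z + (starRingEnd ℂ α) * (z * k z))).re) := by
    apply avg_congr
    intro z hz
    have hz2 : z.re ^ 2 + z.im ^ 2 = 1 := by
      have := Complex.sq_norm z
      rw [hz, normSq_apply] at this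
      nlinarith
    rw [Complex.sq_norm, Complex.sq_norm, Complex.sq_norm]
    simp only [normSq_apply, pow_two, add_re, add_im, mul_re, mul_im, one_re,
      one_im, conj_re, conj_im, re_ofNat, im_ofNat]
    set x := z.re
    set y := z.im
    set p := (k z).re
    set r := (k z).im
    have hN : x * x + y * y = 1 := by nlinarith
    linear_combination ((α.re * α.re + α.im * α.im) + (p * p + r * r) * (x * x + y * y + 1)
      + 2 * (α.re * (x * p - y * r) + α.im * (x * r + y * p))) * hN
  rw [h1, avg_add, avg_add, avg_const, h0, add_zero]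
  · exact continuousOn_const
  · exact (contOn_sph hk).norm.pow 2
  · exact continuousOn_const.add ((contOn_sph hk).norm.pow 2)
  · exact continuous_re.comp_continuousOn (contOn_sph hd)

end Pool.Agent.MP_d3fa2a_an
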