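import Pool.Agent.MP_d3fa2a_an.Avg
import Pool.Agent.MP_d3fa2a_an.Alg

/-! The range `q ≥ 2`: increasing convex order of the squared moduli. -/

namespace Pool.Agent.MP_d3fa2a_an

open Complex Metric Real Set

/-- trigonometric polynomial with prescribed moments -/
noncomputable def T (c₁ c₂ z : ℂ) : ℝ := 2 + 2 * (4 / 3 * A * c₁ * z + c₂ / 3 * z ^ 2).re

/-- truncated power -/
noncomputable def phi (s x : ℝ) : ℝ := (max x 0) ^ s

lemma phi_cont {s : ℝ} (hs : 1 ≤ s) : Continuous (phi s) :=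
  (continuous_id.max continuous_const).rpow_const (fun _ => Or.inr (by linarith))

lemma phi_mono {s : ℝ} (hs : 1 ≤ s) {x y : ℝ} (h : x ≤ y) : phi s x ≤ phi s y :=
  Real.rpow_le_rpow (le_max_right _ _) (max_le_max_right _ h) (by linarith)

lemma phi_conv {s : ℝ} (hs : 1 ≤ s) {t : ℝ} (h0 : 0 ≤ t) (h1 : t ≤ 1) (x y : ℝ) :
    phi s (t * x + (1 - t) * y) ≤ t * phi s x + (1 - t) * phi s y := by
  have h2 := (convexOn_rpow hs).2 (x := max x 0) (y := max y 0) (Set.mem_Ici.2 (le_max_right _ _))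
    (Set.mem_Ici.2 (le_max_right _ _)) h0 (sub_nonneg.2 h1) (by ring)
  simp only [smul_eq_mul] at h2
  refine le_trans ?_ h2
  apply Real.rpow_le_rpow (le_max_right _ _) _ (by linarith)
  have a1 := le_max_left x 0
  have a2 := le_max_right x 0
  have a3 := le_max_left y 0
  have a4 := le_max_right y 0
  have a5 := sub_nonneg.2 h1
  apply max_le
  · gcongr
  · positivity

/-- integral functional -/
noncomputable def Phi (s : ℝ) (c₁ c₂ : ℂ) : ℝ := avg (fun z => phi s (T c₁ c₂ z))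

lemma T_cont (c₁ c₂ : ℂ) : Continuous (T c₁ c₂) := by
  unfold T; fun_prop

lemma Phi_conv {s : ℝ} (hs : 1 ≤ s) {t : ℝ} (h0 : 0 ≤ t) (h1 : t ≤ 1) (x₁ x₂ y₁ y₂ : ℂ) :
    Phi s (t * x₁ + (1 - t) * y₁) (t * x₂ + (1 - t) * y₂) ≤
      t * Phi s x₁ x₂ + (1 - t) * Phi s y₁ y₂ := by
  have c : ∀ a b : ℂ, Continuous (fun z => phi s (T a b z)) :=
    fun a b => (phi_cont hs).comp (T_cont a b)
  unfold Phi
  have c1 : Continuous (fun z => t * phi s (T x₁ x₂ z)) := continuous_const.mul (c _ _)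
  have c2 : Continuous (fun z => (1 - t) * phi s (T y₁ y₂ z)) := continuous_const.mul (c _ _)
  have c3 : Continuous (fun z => t * phi s (T x₁ x₂ z) + (1 - t) * phi s (T y₁ y₂ z)) := c1.add c2
  rw [← avg_mul, ← avg_mul, ← avg_add c1.continuousOn c2.continuousOn]
  apply avg_mono (c _ _).continuousOn c3.continuousOn
  intro z _
  have : T (t * x₁ + (1 - t) * y₁) (t * x₂ + (1 - t) * y₂) z =
      t * T x₁ x₂ z + (1 - t) * T y₁ y₂ z := by
    unfold T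
    have e : 4 / 3 * A * (t * x₁ + (1 - t) * y₁) * z + (t * x₂ + (1 - t) * y₂) / 3 * z ^ 2 =
        (t : ℂ) * (4 / 3 * A * x₁ * z + x₂ / 3 * z ^ 2) +
        ((1 - t : ℝ) : ℂ) * (4 / 3 * A * y₁ * z + y₂ / 3 * z ^ 2) := by push_cast; ring
    rw [e, add_re, re_ofReal_mul, re_ofReal_mul]
    ring
  rw [this]
  exact phi_conv hs h0 h1 _ _

lemma Phi_rot (s : ℝ) {u : ℂ} (hu : ‖u‖ = 1) : Phi s u (u ^ 2) = Phi s 1 1 := by
  unfold Phi
  rw [← avg_rot (fun z => phi s (T 1 1 z)) hu]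
  congr 1
  ext z
  unfold T
  congr 4
  ring

lemma Phi_chord {s : ℝ} (hs : 1 ≤ s) {m d : ℂ} (hm : ‖m‖ ≤ 1) (hd : ‖d‖ = 1) :
    Phi s m (m ^ 2 + ((1 - ‖m‖ ^ 2 : ℝ) : ℂ) * d ^ 2) ≤ Phi s 1 1 := by
  rcases eq_or_lt_of_le hm with h1 | h1
  · rw [h1]
    simpa using (Phi_rot s h1).le
  set ρ := 1 - ‖m‖ ^ 2 with hρ
  have hρ0 : 0 < ρ := by nlinarith [norm_nonneg m]
  set β := m.re * d.re + m.im * d.im with hβ
  set γ := √(β ^ 2 + ρ) with hγ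
  have hγ2 : γ ^ 2 = β ^ 2 + ρ := Real.sq_sqrt (by positivity)
  have hγ0 : 0 < γ := Real.sqrt_pos.2 (by positivity)
  have hb1 : 0 ≤ γ - β := by nlinarith
  have hb2 : 0 ≤ γ + β := by nlinarith
  have hd2 : d.re * d.re + d.im * d.im = 1 := by
    have := Complex.sq_norm d
    rw [hd, normSq_apply] at this
    linarith
  have hm2 : m.re * m.re + m.im * m.im = 1 - ρ := by
    rw [hρ, Complex.sq_norm, normSq_apply]; ring
  have n1 : ‖m + ((γ - β : ℝ) : ℂ) * d‖ = 1 := by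
    have : ‖m + ((γ - β : ℝ) : ℂ) * d‖ ^ 2 = 1 := by
      rw [Complex.sq_norm, normSq_apply]
      simp only [add_re, add_im, re_ofReal_mul, im_ofReal_mul]
      linear_combination hm2 + (γ - β) ^ 2 * hd2 + hγ2 - 2 * (γ - β) * hβ
    nlinarith [norm_nonneg (m + ((γ - β : ℝ) : ℂ) * d)]
  have n2 : ‖m - ((γ + β : ℝ) : ℂ) * d‖ = 1 := by
    have : ‖m - ((γ + β : ℝ) : ℂ) * d‖ ^ 2 = 1 := by
      rw [Complex.sq_norm, normSq_apply]
      simp only [sub_re, sub_im, re_ofReal_mul, im_ofReal_mul]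
      linear_combination hm2 + (γ + β) ^ 2 * hd2 + hγ2 + 2 * (γ + β) * hβ
    nlinarith [norm_nonneg (m - ((γ + β : ℝ) : ℂ) * d)]
  have ht0 : 0 ≤ (γ + β) / (2 * γ) := by positivity
  have ht1 : (γ + β) / (2 * γ) ≤ 1 := by rw [div_le_one (by positivity)]; linarith
  have h := Phi_conv hs ht0 ht1 (m + ((γ - β : ℝ) : ℂ) * d) ((m + ((γ - β : ℝ) : ℂ) * d) ^ 2)
    (m - ((γ + β : ℝ) : ℂ) * d) ((m - ((γ + β : ℝ) : ℂ) * d) ^ 2)
  rw [Phi_rot s n1, Phi_rot s n2] at h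
  have hγc : (γ : ℂ) ≠ 0 := by exact_mod_cast hγ0.ne'
  have hγ2c : (γ : ℂ) ^ 2 = β ^ 2 + ρ := by exact_mod_cast hγ2
  convert h using 2
  · push_cast; field_simp; ring
  · push_cast; field_simp
    linear_combination (-2 * γ * d ^ 2) * hγ2c
  · ring

lemma Phi_disc {s : ℝ} (hs : 1 ≤ s) {m y : ℂ} (hm : ‖m‖ ≤ 1) (hy : ‖y‖ ≤ 1 - ‖m‖ ^ 2) :
    Phi s m (m ^ 2 + y) ≤ Phi s 1 1 := by
  set d : ℂ := cexp (((arg y / 2 : ℝ) : ℂ) * I) with hd
  have hd1 : ‖d‖ = 1 := by rw [hd, Complex.norm_exp_ofReal_mul_I]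
  have hd2 : y = ‖y‖ * d ^ 2 := by
    rw [hd, ← Complex.exp_nat_mul]
    conv_lhs => rw [← norm_mul_exp_arg_mul_I y]
    congr 2
    push_cast; ring
  have h1 := Phi_chord hs hm hd1
  have h2 := Phi_chord hs hm (d := I * d) (by simp [hd1])
  set ρ := 1 - ‖m‖ ^ 2 with hρ
  have hρ0 : 0 ≤ ρ := (norm_nonneg _).trans hy
  rcases eq_or_lt_of_le hρ0 with h0 | h0
  · have : y = 0 := by
      rw [← norm_le_zero_iff]; linarith
    rw [← h0] at h1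
    simpa [this] using h1
  have ht0 : 0 ≤ (ρ + ‖y‖) / (2 * ρ) := by positivity
  have ht1 : (ρ + ‖y‖) / (2 * ρ) ≤ 1 := by rw [div_le_one (by positivity)]; linarith
  have h := Phi_conv hs ht0 ht1 m (m ^ 2 + (ρ : ℂ) * d ^ 2) m (m ^ 2 + (ρ : ℂ) * (I * d) ^ 2)
  have hρc : (ρ : ℂ) ≠ 0 := by exact_mod_cast h0.ne'
  have e1 : (((ρ + ‖y‖) / (2 * ρ) : ℝ) : ℂ) * m + (1 - (((ρ + ‖y‖) / (2 * ρ) : ℝ) : ℂ)) * m = m := by
    ring
  have e2 : (((ρ + ‖y‖) / (2 * ρ) : ℝ) : ℂ) * (m ^ 2 + (ρ : ℂ) * d ^ 2) +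
      (1 - (((ρ + ‖y‖) / (2 * ρ) : ℝ) : ℂ)) * (m ^ 2 + (ρ : ℂ) * (I * d) ^ 2) = m ^ 2 + y := by
    rw [mul_pow, I_sq]
    conv_rhs => rw [hd2]
    push_cast; field_simp; ring
  rw [e1, e2] at h
  nlinarith

lemma rpow_eq_phi (y : ℂ) (s : ℝ) : ‖y‖ ^ (2 * s) = phi s (‖y‖ ^ 2) := by
  unfold phi
  rw [max_eq_left (by positivity), Real.rpow_mul (norm_nonneg _)]
  norm_cast

lemma normsq_quad (a : ℝ) (b : ℂ) {z : ℂ} (hz : ‖z‖ = 1) :
    ‖1 + a * z + b * z ^ 2‖ ^ 2 = 1 + a ^ 2 + ‖b‖ ^ 2 + 2 * (a * (1 + b) * z + b * z ^ 2).re := by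
  have hz2 : z.re * z.re + z.im * z.im = 1 := by
    have := Complex.sq_norm z
    rw [hz, normSq_apply] at this
    linarith
  rw [Complex.sq_norm, Complex.sq_norm]
  simp only [normSq_apply, pow_two, add_re, add_im, mul_re, mul_im, one_re, one_im, ofReal_re,
    ofReal_im]
  linear_combination (a * a + (b.re * b.re + b.im * b.im) * (z.re * z.re + z.im * z.im + 1)
    + 2 * a * (b.re * z.re - b.im * z.im)) * hz2

lemma G_normsq {z : ℂ} (hz : ‖z‖ = 1) : ‖1 + A * z + z ^ 2 / 3‖ ^ 2 = T 1 1 z := by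
  have := normsq_quad A (1 / 3) hz
  rw [show 1 + A * z + z ^ 2 / 3 = 1 + A * z + (1 / 3 : ℂ) * z ^ 2 by ring, this, A_sq]
  unfold T
  rw [show (A : ℂ) * (1 + 1 / 3) * z + 1 / 3 * z ^ 2 = 4 / 3 * A * 1 * z + 1 / 3 * z ^ 2 by ring]
  norm_num

theorem large {r : ℝ} {w : ℂ} (h : Cond r w) {s : ℝ} (hs : 1 ≤ s) :
    avg (fun z => ‖1 + A * r * z + (1 - w) / 3 * z ^ 2‖ ^ (2 * s)) ≤
      avg (fun z => ‖1 + A * z + z ^ 2 / 3‖ ^ (2 * s)) := by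
  have hm := h.m_le
  have hst := h.star
  set m : ℂ := (r : ℂ) * (1 - w / 4) with hmdef
  set y : ℂ := (1 - w) - m ^ 2 with hy
  set δ : ℝ := 3 / 2 * (1 - 8 / 9 * r ^ 2 - ‖1 - w‖ ^ 2 / 9) with hδ
  have hρ : 0 ≤ 1 - ‖m‖ ^ 2 := by nlinarith [norm_nonneg m]
  have hδ0 : 0 ≤ δ := by
    have h0 := h.r0
    have h1 := h.r_le_one
    have h2 := h.c1
    have h3 : 0 ≤ 2 * A * r * ‖w‖ := by have := A_pos; positivity
    rw [hδ, norm_one_sub_sq]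
    nlinarith
  obtain ⟨y₀, hy0, hy1⟩ : ∃ y₀ : ℂ, ‖y₀‖ ≤ 1 - ‖m‖ ^ 2 ∧ ‖y - y₀‖ ≤ δ := by
    rcases le_total ‖y‖ (1 - ‖m‖ ^ 2) with h1 | h1
    · exact ⟨y, h1, by simpa using hδ0⟩
    · set e : ℂ := cexp (arg y * I) with he
      have he1 : ‖e‖ = 1 := by rw [he, Complex.norm_exp_ofReal_mul_I]
      refine ⟨((1 - ‖m‖ ^ 2 : ℝ) : ℂ) * e, ?_, ?_⟩
      · rw [norm_mul, he1, mul_one, Complex.norm_real, Real.norm_of_nonneg hρ]
      · have : y - ((1 - ‖m‖ ^ 2 : ℝ) : ℂ) * e = ((‖y‖ - (1 - ‖m‖ ^ 2) : ℝ) : ℂ) * e := by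
          conv_lhs => rw [← norm_mul_exp_arg_mul_I y]
          push_cast; ring
        rw [this, norm_mul, he1, mul_one, Complex.norm_real, Real.norm_of_nonneg (by linarith)]
        linarith
  have h1 := Phi_disc hs hm hy0
  have h2 : avg (fun z => ‖1 + A * z + z ^ 2 / 3‖ ^ (2 * s)) = Phi s 1 1 := by
    apply avg_congr
    intro z hz
    rw [rpow_eq_phi, G_normsq hz]
  rw [h2]
  refine le_trans ?_ h1
  simp only [rpow_eq_phi]
  apply avg_mono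
  · apply Continuous.continuousOn
    apply (phi_cont hs).comp
    fun_prop
  · exact ((phi_cont hs).comp (T_cont _ _)).continuousOn
  intro z hz
  apply phi_mono hs
  have := normsq_quad (A * r) ((1 - w) / 3) hz
  push_cast at this
  rw [this]
  have e : (A : ℂ) * r * (1 + (1 - w) / 3) * z + (1 - w) / 3 * z ^ 2 =
      (4 / 3 * A * m * z + (m ^ 2 + y₀) / 3 * z ^ 2) + (y - y₀) * z ^ 2 / 3 := by
    rw [hy, hmdef]; ring
  have h3 : ((y - y₀) * z ^ 2 / 3).re ≤ δ / 3 := by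
    refine (Complex.re_le_norm _).trans ?_
    rw [norm_div, norm_mul, norm_pow, hz]
    simp only [one_pow, mul_one, Complex.norm_ofNat]
    linarith
  rw [e, add_re, mul_pow, A_sq, norm_div, div_pow]
  unfold T
  simp only [Complex.norm_ofNat]
  linarith

end Pool.Agent.MP_d3fa2a_an
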