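import Pool.Agent.MP_d3fa2a_an.Alg

/-! Univalence of the extremal cubic and of the extremal quadratic. -/

namespace Pool.Agent.MP_d3fa2a_an

open Complex Metric Real Set

lemma real_core {x y c : ℝ} (hc : c ^ 2 = 2)
    (hR : 0 < 2 * (x ^ 2 + y ^ 2) - (x ^ 2 + y ^ 2) ^ 2 - 4 * x ^ 2) :
    (2 * (x ^ 2 + y ^ 2) - (x ^ 2 + y ^ 2) ^ 2 - 4 * x ^ 2) ^ 2 ≤
      ((x ^ 2 + y ^ 2) * x + c * (x ^ 2 - y ^ 2)) ^ 2 +
        (y * (2 - (x ^ 2 + y ^ 2) - 2 * c * x)) ^ 2 := by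
  obtain ⟨N, hN⟩ : ∃ N, N = x ^ 2 + y ^ 2 := ⟨_, rfl⟩
  obtain ⟨W, hW⟩ : ∃ W, W = 2 * c * x := ⟨_, rfl⟩
  obtain ⟨R, hRd⟩ : ∃ R, R = 2 * N - N ^ 2 - 4 * x ^ 2 := ⟨_, rfl⟩
  have hR2 : R = 2 * N - N ^ 2 - W ^ 2 / 2 := by
    rw [hRd, hW]; linear_combination 2 * x ^ 2 * hc
  have hL : ((x ^ 2 + y ^ 2) * x + c * (x ^ 2 - y ^ 2)) ^ 2 +
        (y * (2 - (x ^ 2 + y ^ 2) - 2 * c * x)) ^ 2 =
      N ^ 2 + 2 * N - (N - 1) * R - W * (2 * N + R) := by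
    rw [hRd, hW, hN]
    linear_combination (x ^ 2 + y ^ 2) ^ 2 * hc
  rw [hL, ← hN, ← hRd]
  rw [← hN, ← hRd] at hR
  obtain ⟨Q, hQ⟩ : ∃ Q, Q = 3 / 2 * (N - 2 / 3) ^ 2 + 3 / 4 * (W - 4 / 3) ^ 2 := ⟨_, rfl⟩
  have hQ0 : 0 ≤ Q := by rw [hQ]; positivity
  have key : N ^ 2 + 2 * N - (N - 1) * R - W * (2 * N + R) - R ^ 2 =
      (4 * (N - 2 / 3) + (W - 4 / 3) + 2 * Q) ^ 2 / 18 + Q * R := by
    rw [hQ, hR2]; ring
  have : 0 ≤ Q * R := mul_nonneg hQ0 hR.le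
  nlinarith [sq_nonneg (4 * (N - 2 / 3) + (W - 4 / 3) + 2 * Q)]

lemma strict_schur {z₁ z₂ : ℂ} (h1 : ‖z₁‖ < 1) (h2 : ‖z₂‖ < 1) :
    ‖z₁ * z₂‖ < 1 ∧ ‖(z₁ + z₂) - (starRingEnd ℂ) (z₁ + z₂) * (z₁ * z₂)‖ < 1 - ‖z₁ * z₂‖ ^ 2 := by
  have n1 := norm_nonneg z₁
  have n2 := norm_nonneg z₂
  have hp : ‖z₁‖ * ‖z₂‖ < 1 := by nlinarith
  constructor
  · rwa [norm_mul]
  · have e : (z₁ + z₂) - (starRingEnd ℂ) (z₁ + z₂) * (z₁ * z₂) =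
        z₁ * ((1 - ‖z₂‖ ^ 2 : ℝ) : ℂ) + z₂ * ((1 - ‖z₁‖ ^ 2 : ℝ) : ℂ) := by
      have c1 := Complex.mul_conj' z₁
      have c2 := Complex.mul_conj' z₂
      push_cast
      simp only [map_add]
      linear_combination -z₂ * c1 - z₁ * c2
    rw [e]
    refine (norm_add_le _ _).trans_lt ?_
    rw [norm_mul, norm_mul, Complex.norm_real, Complex.norm_real,
      Real.norm_of_nonneg (by nlinarith), Real.norm_of_nonneg (by nlinarith), norm_mul]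
    have : 0 < (1 - ‖z₁‖) * (1 - ‖z₂‖) * (1 - ‖z₁‖ * ‖z₂‖) := by
      apply mul_pos (mul_pos (by linarith) (by linarith))
      linarith
    nlinarith

lemma quot_ne {z₁ z₂ : ℂ} (h1 : ‖z₁‖ < 1) (h2 : ‖z₂‖ < 1) :
    1 + A * (z₁ + z₂) + (z₁ ^ 2 + z₁ * z₂ + z₂ ^ 2) / 3 ≠ 0 := by
  intro h0
  obtain ⟨k1, k2⟩ := strict_schur h1 h2
  have hc : (√2 : ℝ) ^ 2 = 2 := Real.sq_sqrt (by norm_num)
  have hcc : ((√2 : ℝ) : ℂ) ^ 2 = 2 := by exact_mod_cast hc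
  obtain ⟨t, ht⟩ : ∃ t : ℂ, t = -(z₁ + z₂) - (√2 : ℝ) := ⟨_, rfl⟩
  have hs : z₁ + z₂ = -(t + (√2 : ℝ)) := by rw [ht]; ring
  have hp : z₁ * z₂ = 1 + t ^ 2 := by
    unfold A at h0
    push_cast at h0
    rw [ht]
    linear_combination (-3 : ℂ) * h0 - hcc
  rw [hs, hp] at k2
  rw [hp] at k1
  have hR : 1 - ‖1 + t ^ 2‖ ^ 2 =
      2 * (t.re ^ 2 + t.im ^ 2) - (t.re ^ 2 + t.im ^ 2) ^ 2 - 4 * t.re ^ 2 := by
    rw [Complex.sq_norm]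
    simp only [normSq_apply, pow_two, add_re, add_im, mul_re, mul_im, one_re, one_im]
    ring
  have hL : ‖-(t + (√2 : ℝ)) - (starRingEnd ℂ) (-(t + (√2 : ℝ))) * (1 + t ^ 2)‖ ^ 2 =
      ((t.re ^ 2 + t.im ^ 2) * t.re + √2 * (t.re ^ 2 - t.im ^ 2)) ^ 2 +
        (t.im * (2 - (t.re ^ 2 + t.im ^ 2) - 2 * √2 * t.re)) ^ 2 := by
    rw [Complex.sq_norm]
    simp only [normSq_apply, pow_two, add_re, add_im, mul_re, mul_im, one_re, one_im, sub_re,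
      sub_im, neg_re, neg_im, conj_re, conj_im, ofReal_re, ofReal_im]
    ring
  have hR0 : 0 < 1 - ‖1 + t ^ 2‖ ^ 2 := by nlinarith [norm_nonneg (1 + t ^ 2)]
  have := real_core (x := t.re) (y := t.im) hc (hR ▸ hR0)
  rw [← hR, ← hL] at this
  have h3 := pow_lt_pow_left₀ k2 (norm_nonneg _) (two_ne_zero)
  linarith

theorem S_injOn : InjOn (fun z : ℂ => z + (A : ℂ) * z ^ 2 + (1 / 3 : ℂ) * z ^ 3) (ball 0 1) := by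
  intro z₁ h1 z₂ h2 h
  simp only [mem_ball, dist_zero_right] at h1 h2
  have h3 := quot_ne h1 h2
  have h4 : (z₁ - z₂) * (1 + A * (z₁ + z₂) + (z₁ ^ 2 + z₁ * z₂ + z₂ ^ 2) / 3) = 0 := by
    have h' : z₁ + (A : ℂ) * z₁ ^ 2 + (1 / 3 : ℂ) * z₁ ^ 3 =
      z₂ + (A : ℂ) * z₂ ^ 2 + (1 / 3 : ℂ) * z₂ ^ 3 := h
    linear_combination h'
  rcases mul_eq_zero.1 h4 with h5 | h5
  · exact sub_eq_zero.1 h5
  · exact absurd h5 h3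

theorem Q_injOn : InjOn (fun z : ℂ => z + (1 / 2 : ℂ) * z ^ 2) (ball 0 1) := by
  intro z₁ h1 z₂ h2 h
  simp only [mem_ball, dist_zero_right] at h1 h2
  have h4 : (z₁ - z₂) * (2 + (z₁ + z₂)) = 0 := by
    have h' : z₁ + (1 / 2 : ℂ) * z₁ ^ 2 = z₂ + (1 / 2 : ℂ) * z₂ ^ 2 := h
    linear_combination 2 * h'
  rcases mul_eq_zero.1 h4 with h5 | h5
  · exact sub_eq_zero.1 h5
  · exfalso
    have h6 : z₁ + z₂ = -2 := by linear_combination h5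
    have h7 := norm_add_le z₁ z₂
    rw [h6] at h7
    simp at h7
    linarith

lemma quad_coeff {a : ℂ} (h : InjOn (fun z : ℂ => z + a * z ^ 2) (ball 0 1)) : ‖a‖ ≤ 1 / 2 := by
  have h' : InjOn (fun z : ℂ => z + a * z ^ 2 + 0 * z ^ 3) (ball 0 1) := by simpa using h
  have := cond_u h' (u := 2) (by norm_num) le_rfl
  simp only [mul_zero, sub_zero, norm_zero, norm_mul, Complex.norm_real] at this
  norm_num at this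
  linarith

end Pool.Agent.MP_d3fa2a_an
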