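import Pool.Agent.MP_d3fa2a_an.Small
import Pool.Agent.MP_d3fa2a_an.Large
import Pool.Agent.MP_d3fa2a_an.Univ

/-! Assembly of the cubic and quadratic cases. -/

namespace Pool.Agent.MP_d3fa2a_an

open Complex Metric Real Set

lemma integral_eq_avg (f : ℂ → ℝ) :
    ∫ t in (0 : ℝ)..2 * π, f (cexp (t * I)) = 2 * π * avg f := by
  unfold avg
  rw [circleAverage_def, smul_eq_mul, ← mul_assoc, mul_inv_cancel₀ (by positivity), one_mul]
  simp [circleMap]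

lemma both {r : ℝ} {w : ℂ} (h : Cond r w) {q : ℝ} (hq : 0 < q) :
    avg (fun z => ‖1 + A * r * z + (1 - w) / 3 * z ^ 2‖ ^ q) ≤
      avg (fun z => ‖1 + A * z + z ^ 2 / 3‖ ^ q) := by
  obtain ⟨l, rfl⟩ : ∃ l, q = 2 * l := ⟨q / 2, by ring⟩
  rcases le_total l 1 with h1 | h1
  · exact small h (by linarith) h1
  · exact large h h1

theorem cubic_le {a b : ℂ} (h : InjOn (fun z : ℂ => z + a * z ^ 2 + b * z ^ 3) (ball 0 1))
    {q : ℝ} (hq : 0 < q) :
    avg (fun z => ‖z + a * z ^ 2 + b * z ^ 3‖ ^ q) ≤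
      avg (fun z => ‖1 + A * z + z ^ 2 / 3‖ ^ q) := by
  obtain ⟨r, w, η, hη, hc, ha, hb⟩ := normalise h
  refine le_trans (le_of_eq ?_) (both hc hq)
  rw [← avg_rot (fun z => ‖1 + A * r * z + (1 - w) / 3 * z ^ 2‖ ^ q) hη]
  apply avg_congr
  intro z hz
  have : z + a * z ^ 2 + b * z ^ 3 = z * (1 + A * r * (η * z) + (1 - w) / 3 * (η * z) ^ 2) := by
    rw [ha, hb]; ring
  rw [this, norm_mul, hz, one_mul]

lemma S_avg (q : ℝ) : avg (fun z => ‖z + (A : ℂ) * z ^ 2 + (1 / 3 : ℂ) * z ^ 3‖ ^ q) =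
    avg (fun z => ‖1 + A * z + z ^ 2 / 3‖ ^ q) := by
  apply avg_congr
  intro z hz
  have : z + (A : ℂ) * z ^ 2 + (1 / 3 : ℂ) * z ^ 3 = z * (1 + A * z + z ^ 2 / 3) := by ring
  rw [this, norm_mul, hz, one_mul]

lemma S_value (q : ℝ) : 2 * π * avg (fun z => ‖1 + A * z + z ^ 2 / 3‖ ^ q) =
    ∫ t in (0 : ℝ)..2 * π, (2 + 16 * √2 / 9 * Real.cos t + 2 / 3 * Real.cos (2 * t)) ^ (q / 2) := by
  rw [← integral_eq_avg]
  congr 1
  ext t
  have hz : ‖cexp (t * I)‖ = 1 := Complex.norm_exp_ofReal_mul_I t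
  have h1 := G_normsq hz
  have h2 : T 1 1 (cexp (t * I)) = 2 + 16 * √2 / 9 * Real.cos t + 2 / 3 * Real.cos (2 * t) := by
    unfold T A
    have e : cexp (t * I) ^ 2 = cexp (((2 * t : ℝ) : ℂ) * I) := by
      rw [← Complex.exp_nat_mul]; congr 1; push_cast; ring
    have e2 : 4 / 3 * ((2 * √2 / 3 : ℝ) : ℂ) * 1 * cexp (t * I) + 1 / 3 * cexp (t * I) ^ 2 =
        ((8 * √2 / 9 : ℝ) : ℂ) * cexp (t * I) + ((1 / 3 : ℝ) : ℂ) * cexp (((2 * t : ℝ) : ℂ) * I) := by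
      rw [e]; push_cast; ring
    rw [e2, add_re, re_ofReal_mul, re_ofReal_mul, exp_ofReal_mul_I_re, exp_ofReal_mul_I_re]
    ring
  rw [← h2, ← h1, ← Real.rpow_natCast, ← Real.rpow_mul (norm_nonneg _)]
  congr 1
  push_cast
  ring

theorem quad_le {a : ℂ} (h : InjOn (fun z : ℂ => z + a * z ^ 2) (ball 0 1))
    {q : ℝ} : avg (fun z => ‖z + a * z ^ 2‖ ^ q) ≤ avg (fun z => ‖1 + z / 2‖ ^ q) := by
  obtain ⟨l, rfl⟩ : ∃ l, q = 2 * l := ⟨q / 2, by ring⟩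
  have ha := quad_coeff h
  obtain ⟨k, hk, ek⟩ := pow_split (f := fun z => 1 + z / 2) (by fun_prop) (by simp) (α := 1 / 2)
    (by simpa using ((hasDerivAt_id (0 : ℂ)).div_const 2).const_add 1)
    (fun z hz => by
      have := neg_le_re hz
      simp only [add_re, one_re, div_ofNat_re]
      linarith) l
  have hd : DiffContOnCl ℂ (fun z : ℂ => (1 + z / 2) ^ (l : ℂ)) (ball 0 1) := by
    simp only [ek]
    have e1 : DiffContOnCl ℂ (fun z : ℂ => z) (ball 0 1) := differentiable_id.diffContOnCl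
    exact ⟨((e1.1.const_mul _).const_add 1).add ((e1.1.pow 2).mul hk.1),
      (continuousOn_const.add (continuousOn_const.mul e1.2)).add ((e1.2.pow 2).mul hk.2)⟩
  have := avg_dilate hd (c := 2 * a) (by rw [norm_mul]; simp only [Complex.norm_ofNat]; linarith)
  simp only [← norm_rpow_eq] at this
  refine le_trans (le_of_eq ?_) this
  apply avg_congr
  intro z hz
  have : z + a * z ^ 2 = z * (1 + 2 * a * z / 2) := by ring
  rw [this, norm_mul, hz, one_mul]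

lemma Q_avg (q : ℝ) : avg (fun z => ‖z + (1 / 2 : ℂ) * z ^ 2‖ ^ q) =
    avg (fun z => ‖1 + z / 2‖ ^ q) := by
  apply avg_congr
  intro z hz
  have : z + (1 / 2 : ℂ) * z ^ 2 = z * (1 + z / 2) := by ring
  rw [this, norm_mul, hz, one_mul]

lemma Q_value (q : ℝ) : 2 * π * avg (fun z => ‖1 + z / 2‖ ^ q) =
    ∫ t in (0 : ℝ)..2 * π, (5 / 4 + Real.cos t) ^ (q / 2) := by
  rw [← integral_eq_avg]
  congr 1
  ext t
  have h1 : ‖1 + cexp (t * I) / 2‖ ^ 2 = 5 / 4 + Real.cos t := by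
    rw [Complex.sq_norm, normSq_apply]
    simp only [add_re, add_im, one_re, one_im, div_ofNat_re, div_ofNat_im, exp_ofReal_mul_I_re,
      exp_ofReal_mul_I_im]
    nlinarith [Real.sin_sq_add_cos_sq t]
  rw [← h1, ← Real.rpow_natCast, ← Real.rpow_mul (norm_nonneg _)]
  congr 1
  push_cast
  ring

end Pool.Agent.MP_d3fa2a_an
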