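import Pool.Agent.MP_d3fa2a_an.Final

/-! The value of `M_{2,q}` for every `q > 0`, attained by `z + z²/2`. -/

namespace Pool.Agent.MP_d3fa2a_an.QuadraticNote

open Pool.Agent.MP_d3fa2a_an

theorem result (q : ℝ) (_hq : 0 < q) :
    IsGreatest
      {x : ℝ | ∃ a₂ : ℂ,
        Set.InjOn (fun z : ℂ => z + a₂ * z ^ 2) (Metric.ball 0 1) ∧
        x = ∫ t in (0 : ℝ)..2 * Real.pi,
          ‖(fun z : ℂ => z + a₂ * z ^ 2) (Complex.exp (t * Complex.I))‖ ^ q}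
      (∫ t in (0 : ℝ)..2 * Real.pi, (5 / 4 + Real.cos t) ^ (q / 2)) := by
  constructor
  · refine ⟨1 / 2, Q_injOn, ?_⟩
    rw [← Q_value, ← Q_avg, ← integral_eq_avg (fun z => ‖z + (1 / 2 : ℂ) * z ^ 2‖ ^ q)]
  · rintro x ⟨a, h, rfl⟩
    rw [← Q_value]
    have := integral_eq_avg (fun z => ‖z + a * z ^ 2‖ ^ q)
    refine this.le.trans ?_
    exact mul_le_mul_of_nonneg_left (quad_le h) (by positivity)

end Pool.Agent.MP_d3fa2a_an.QuadraticNote
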