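import Pool.Agent.MP_d3fa2a_an.Avg
import Pool.Agent.MP_d3fa2a_an.Alg

/-! The range `0 < q ≤ 2`: comparison in the Hardy space. -/

namespace Pool.Agent.MP_d3fa2a_an

open Complex Metric Real Set

lemma pow_split {f : ℂ → ℂ} (hf : Differentiable ℂ f) (h0 : f 0 = 1) {α : ℂ}
    (h1 : HasDerivAt f α 0) (hre : ∀ z : ℂ, ‖z‖ ≤ 1 → 0 < (f z).re) (l : ℝ) :
    ∃ k : ℂ → ℂ, DiffContOnCl ℂ k (ball 0 1) ∧
      ∀ z, f z ^ (l : ℂ) = 1 + (l * α) * z + z ^ 2 * k z := by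
  set U : Set ℂ := {z | 0 < (f z).re} with hU
  have hUo : IsOpen U := isOpen_lt continuous_const (continuous_re.comp hf.continuous)
  have hsub : closedBall (0 : ℂ) 1 ⊆ U := fun z hz => hre z (by simpa using hz)
  have h0U : U ∈ nhds (0 : ℂ) := hUo.mem_nhds (hsub (by simp))
  set F : ℂ → ℂ := fun z => f z ^ (l : ℂ) with hF
  have hFd : DifferentiableOn ℂ F U := fun z hz =>
    ((hf z).hasDerivAt.cpow_const (c := l) (Or.inl hz)).differentiableAt.differentiableWithinAt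
  have hk : DifferentiableOn ℂ (dslope (dslope F 0) 0) U :=
    (differentiableOn_dslope h0U).2 ((differentiableOn_dslope h0U).2 hFd)
  refine ⟨dslope (dslope F 0) 0, hk.diffContOnCl_ball hsub, fun z => ?_⟩
  have e1 := sub_smul_dslope F 0 z
  have e2 := sub_smul_dslope (dslope F 0) 0 z
  have e3 : dslope F 0 0 = l * α := by
    rw [dslope_same]
    have := (h1.cpow_const (c := l) (by rw [h0]; exact Complex.one_mem_slitPlane)).deriv
    rw [h0] at this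
    simpa using this
  have e4 : F 0 = 1 := by simp [hF, h0]
  simp only [sub_zero, smul_eq_mul] at e1 e2
  rw [e3] at e2
  rw [e4] at e1
  show F z = _
  linear_combination -e1 - z * e2

lemma norm_rpow_eq (y : ℂ) (l : ℝ) : ‖y‖ ^ (2 * l) = ‖y ^ (l : ℂ)‖ ^ 2 := by
  rw [Complex.norm_cpow_real, mul_comm, Real.rpow_mul (norm_nonneg _)]
  norm_cast

lemma cpow_lip {m l : ℝ} (hm : 0 < m) (hm1 : m ≤ 1) (hl : 0 < l) (hl1 : l ≤ 1) {P Q : ℂ}
    (hP : m ≤ P.re) (hQ : m ≤ Q.re) : ‖Q ^ (l : ℂ) - P ^ (l : ℂ)‖ ≤ l / m * ‖Q - P‖ := by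
  apply Convex.norm_image_sub_le_of_norm_hasDerivWithin_le (s := {z : ℂ | m ≤ z.re})
    (f := fun z : ℂ => z ^ (l : ℂ)) (f' := fun z => l * z ^ ((l : ℂ) - 1)) _ _
    (convex_halfSpace_re_ge m) hP hQ
  · intro z hz
    have hz' : m ≤ z.re := hz
    have := (hasDerivAt_id z).cpow_const (c := l) (Or.inl (by simp; linarith))
    simpa using this.hasDerivWithinAt
  · intro z hz
    have hz' : m ≤ z.re := hz
    have hn : m ≤ ‖z‖ := hz'.trans (Complex.re_le_norm z)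
    rw [norm_mul, Complex.norm_real, Real.norm_of_nonneg hl.le,
      show (l : ℂ) - 1 = ((l - 1 : ℝ) : ℂ) by push_cast; ring, Complex.norm_cpow_real,
      div_eq_mul_inv]
    apply mul_le_mul_of_nonneg_left _ hl.le
    calc ‖z‖ ^ (l - 1) ≤ m ^ (l - 1) := Real.rpow_le_rpow_of_nonpos hm hn (by linarith)
      _ ≤ m ^ (-1 : ℝ) := Real.rpow_le_rpow_of_exponent_ge hm hm1 (by linarith)
      _ = m⁻¹ := Real.rpow_neg_one m

lemma re_lower {r D : ℝ} {v y : ℂ} (hv : ‖v‖ ≤ r) (hy : ‖y‖ ≤ D / 3) :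
    1 + A * v.re + 2 / 3 * v.re ^ 2 - (r ^ 2 + D) / 3 ≤ (1 + A * v + v ^ 2 / 3 + y).re := by
  have h1 : -(D / 3) ≤ y.re := by
    have := Complex.abs_re_le_norm y
    linarith [neg_abs_le y.re]
  have h2 : v.re ^ 2 + v.im ^ 2 ≤ r ^ 2 := by
    have := pow_le_pow_left₀ (norm_nonneg _) hv 2
    rw [Complex.sq_norm, normSq_apply] at this
    nlinarith
  simp only [add_re, one_re, mul_re, ofReal_re, ofReal_im, zero_mul, sub_zero, div_ofNat_re,
    pow_two]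
  nlinarith

lemma neg_le_re {r : ℝ} {v : ℂ} (hv : ‖v‖ ≤ r) : -r ≤ v.re := by
  have := Complex.abs_re_le_norm v
  linarith [neg_abs_le v.re]

lemma G_re {z : ℂ} (hz : ‖z‖ ≤ 1) : 1 / 3 ≤ (1 + A * z + z ^ 2 / 3).re := by
  have := re_lower (D := 0) (y := 0) hz (by simp)
  rw [add_zero (1 + A * z + z ^ 2 / 3 : ℂ)] at this
  linarith [Cond.psi z.re]

lemma two_term {s c X Y : ℝ} (hs0 : 0 ≤ s) (hs1 : s ≤ 1) (hY : Y ^ 2 ≤ c * (1 - s) ^ 2 * (1 + s)) :
    (s * X + Y) ^ 2 ≤ X ^ 2 + c * (1 - s) := by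
  rcases eq_or_lt_of_le hs1 with hs2 | hs2
  · rw [hs2] at hY ⊢
    have : Y = 0 := by nlinarith
    rw [this]
    nlinarith
  · have hpos : 0 < (1 - s) * (1 + s) := by nlinarith
    apply le_of_mul_le_mul_left _ hpos
    nlinarith [sq_nonneg ((1 - s) * (1 + s) * X - s * Y)]

theorem small {r : ℝ} {w : ℂ} (h : Cond r w) {l : ℝ} (hl : 0 < l) (hl1 : l ≤ 1) :
    avg (fun z => ‖1 + A * r * z + (1 - w) / 3 * z ^ 2‖ ^ (2 * l)) ≤
      avg (fun z => ‖1 + A * z + z ^ 2 / 3‖ ^ (2 * l)) := by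
  obtain ⟨m, hm, hm1, hlow, hD⟩ := h.key
  have h0 := h.r0
  have h1 := h.r_le_one
  set D := ‖((1 - r ^ 2 : ℝ) : ℂ) - w‖ with hDdef
  have hD0 : 0 ≤ D := norm_nonneg _
  have hrz : ∀ z : ℂ, ‖z‖ ≤ 1 → ‖(r : ℂ) * z‖ ≤ r := by
    intro z hz
    rw [norm_mul, Complex.norm_real, Real.norm_of_nonneg h0]
    nlinarith
  have hsplit : ∀ z : ℂ, 1 + A * r * z + (1 - w) / 3 * z ^ 2 =
      1 + A * (r * z) + (r * z) ^ 2 / 3 + (((1 - r ^ 2 : ℝ) : ℂ) - w) / 3 * z ^ 2 := by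
    intro z; push_cast; ring
  have hy : ∀ z : ℂ, ‖z‖ ≤ 1 → ‖(((1 - r ^ 2 : ℝ) : ℂ) - w) / 3 * z ^ 2‖ ≤ D / 3 := by
    intro z hz
    rw [norm_mul, norm_div, norm_pow, ← hDdef]
    have : ‖z‖ ^ 2 ≤ 1 := pow_le_one₀ (norm_nonneg _) hz
    simp only [Complex.norm_ofNat]
    nlinarith
  have hg : ∀ z : ℂ, ‖z‖ ≤ 1 → m ≤ (1 + A * r * z + (1 - w) / 3 * z ^ 2).re := by
    intro z hz
    rw [hsplit]
    exact (hlow _ (neg_le_re (hrz z hz))).trans (re_lower (hrz z hz) (hy z hz))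
  have hG : ∀ z : ℂ, ‖z‖ ≤ 1 → m ≤ (1 + A * (r * z) + (r * z) ^ 2 / 3 : ℂ).re := by
    intro z hz
    have := re_lower (D := D) (y := 0) (hrz z hz) (by simp; positivity)
    rw [add_zero (1 + A * (r * z) + (r * z) ^ 2 / 3 : ℂ)] at this
    exact (hlow _ (neg_le_re (hrz z hz))).trans this
  obtain ⟨k, hk, ek⟩ := pow_split (f := fun z => 1 + A * r * z + (1 - w) / 3 * z ^ 2)
    (by fun_prop) (by simp) (α := A * r)
    (by
      have := (((hasDerivAt_id (0 : ℂ)).const_mul ((A : ℂ) * r)).const_add 1).fun_add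
        (((hasDerivAt_id (0 : ℂ)).fun_pow 2).const_mul ((1 - w) / 3))
      simpa using this)
    (fun z hz => hm.trans_le (hg z hz)) l
  obtain ⟨K, hK, eK⟩ := pow_split (f := fun z => 1 + A * z + z ^ 2 / 3)
    (by fun_prop) (by simp) (α := A)
    (by
      have := (((hasDerivAt_id (0 : ℂ)).const_mul (A : ℂ)).const_add 1).fun_add
        (((hasDerivAt_id (0 : ℂ)).fun_pow 2).div_const 3)
      simpa using this)
    (fun z hz => lt_of_lt_of_le (by norm_num) (G_re hz)) l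
  simp only [norm_rpow_eq, ek, eK]
  rw [avg_parseval hk, avg_parseval hK]
  have hr1 : ‖(r : ℂ)‖ ≤ 1 := by rwa [Complex.norm_real, Real.norm_of_nonneg h0]
  have hdil := avg_dilate hK hr1
  have hpt : avg (fun z => ‖k z‖ ^ 2) ≤
      avg (fun z => ‖K (r * z)‖ ^ 2 + l ^ 2 * (8 / 9) * (1 - r ^ 2)) := by
    apply avg_mono ((contOn_sph hk).norm.pow 2)
      (((contOn_sph (dcc_mul hK hr1)).norm.pow 2).add continuousOn_const)
    intro z hz
    show ‖k z‖ ^ 2 ≤ ‖K (r * z)‖ ^ 2 + l ^ 2 * (8 / 9) * (1 - r ^ 2)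
    have e1 := ek z
    have e2 := eK (r * z)
    have lip := cpow_lip hm hm1 hl hl1 (hG z hz.le) (hg z hz.le)
    rw [e1, e2] at lip
    have e3 : 1 + l * (A * r) * z + z ^ 2 * k z - (1 + l * A * (r * z) + (r * z) ^ 2 * K (r * z))
        = z ^ 2 * (k z - ((r ^ 2 : ℝ) : ℂ) * K (r * z)) := by push_cast; ring
    have e4 : 1 + A * r * z + (1 - w) / 3 * z ^ 2 - (1 + A * (r * z) + (r * z) ^ 2 / 3) =
        (((1 - r ^ 2 : ℝ) : ℂ) - w) / 3 * z ^ 2 := by push_cast; ring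
    rw [e3, e4, norm_mul, norm_pow, hz, one_pow, one_mul] at lip
    have lip2 : ‖k z - ((r ^ 2 : ℝ) : ℂ) * K (r * z)‖ ≤ l / m * (D / 3) :=
      lip.trans (mul_le_mul_of_nonneg_left (hy z hz.le) (by positivity))
    have tri : ‖k z‖ ≤ r ^ 2 * ‖K (r * z)‖ + l / m * (D / 3) := by
      have := norm_add_le (((r ^ 2 : ℝ) : ℂ) * K (r * z)) (k z - ((r ^ 2 : ℝ) : ℂ) * K (r * z))
      rw [add_sub_cancel, norm_mul, Complex.norm_real, Real.norm_of_nonneg (by positivity)] at this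
      linarith
    set X := ‖K (r * z)‖
    set Y := l / m * (D / 3) with hY
    have hX : 0 ≤ X := norm_nonneg _
    have hY0 : 0 ≤ Y := by positivity
    have hY2 : Y ^ 2 ≤ l ^ 2 * (8 / 9) * (1 - r ^ 2) ^ 2 * (1 + r ^ 2) := by
      rw [hY, mul_pow, div_pow, div_pow, div_mul_eq_mul_div, div_le_iff₀ (by positivity)]
      nlinarith [mul_le_mul_of_nonneg_left hD (sq_nonneg l)]
    have t2 := pow_le_pow_left₀ (norm_nonneg _) tri 2
    exact t2.trans (two_term (by positivity) (by nlinarith) hY2)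
  rw [avg_add (f := fun z => ‖K (r * z)‖ ^ 2) ((contOn_sph (dcc_mul hK hr1)).norm.pow 2)
    continuousOn_const, avg_const] at hpt
  have n1 : ‖(l : ℂ) * (A * r)‖ ^ 2 = l ^ 2 * (8 / 9) * r ^ 2 := by
    rw [norm_mul, norm_mul, Complex.norm_real, Complex.norm_real, Complex.norm_real, mul_pow,
      mul_pow, Real.norm_eq_abs, Real.norm_eq_abs, Real.norm_eq_abs, sq_abs, sq_abs, sq_abs, A_sq]
    ring
  have n2 : ‖(l : ℂ) * A‖ ^ 2 = l ^ 2 * (8 / 9) := by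
    rw [norm_mul, Complex.norm_real, Complex.norm_real, mul_pow,
      Real.norm_eq_abs, Real.norm_eq_abs, sq_abs, sq_abs, A_sq]
  rw [n1, n2]
  linarith

end Pool.Agent.MP_d3fa2a_an
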